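import Pool.Agent.TH652.Dual7
import Pool.Agent.W907.SM.Final

/-!
# All `ℓ²`-Betti numbers vanish if and only if the Euler characteristic does: flag homology spheres in the class `AQ`

`HSph n G`: the flag complex of `G` is a real homology manifold with the real homology of the `(n-1)`-sphere (for
example a flag triangulation of the `(n-1)`-sphere). The Davis complex of the right-angled Coxeter group `W G` is then
a contractible real homology `n`-manifold (a topological manifold if the flag complex is a combinatorial sphere), and
its quotient by a torsion-free subgroup of finite index of `W G` is a closed aspherical `n`-manifold; the Euler
characteristic of this quotient is the index times the Euler characteristic `chiW G` of the group.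

The class `AQ n` contains the order complexes of the graded posets of length `n` which are Gorenstein* over `F_2` and
is closed under full subgraphs, joins, subdivisions and deletions of edges with links in the class `n - 2`, under
gluing, and, in the even dimensions `n = 2 m + 2`, it contains every flag complex for which the vertices whose links
are not in the class `AQ (2 m + 1)` span a subcomplex of dimension at most `m`.
-/

set_option autoImplicit false

namespace Pool.Agent.Results.MP_394d50_gt.HomologySpheresAQ

open Pool.Agent.W907.SG Pool.Agent.W907.SM Pool.Agent.TH652.Above

/-- For the Davis complex of a flag homology sphere in the class `AQ n`, all reduced `ℓ²`-homology vanishes if and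
only if the Euler characteristic of the group is zero. -/
theorem result : ∀ (n : ℕ) (V : Type) [Fintype V] [LinearOrder V] (G : SimpleGraph V), HSph n G → AQ n G →
    ((∀ i : ℕ, L2Van G i) ↔ chiW G = 0) := by
  intro n V _ _ G hS hA
  refine l2eul V G (n / 2) fun i hi => ?_
  exact singer_AQ hS hA i (by omega)

end Pool.Agent.Results.MP_394d50_gt.HomologySpheresAQ
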