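import Pool.Agent.Y132.SI.Free

/-!
# The Euler characteristic and the growth of the Betti numbers

Let the flag complex `L` of the finite graph `G` be a triangulated `(n-1)`-sphere (a homology sphere and homology
manifold is enough). Then the quotient of the Davis complex of `L` by any torsion-free subgroup `H` of finite index
of the right-angled Coxeter group `W G` is a closed aspherical `n`-manifold `M` with fundamental group `H` and
`χ(M) = [W G : H] χ(W G)`.

We prove, for the graphs in the class `AQ n`, that the Euler characteristic of these manifolds vanishes if and only if
all the ordinary Betti numbers of their far enough finite covers grow sublinearly, in the strongest possible sense: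
uniformly for all subgroups of finite index which contain no conjugate of an element of a finite set `E = E(ε)` of
nontrivial elements.
-/

set_option autoImplicit false

namespace Pool.Agent.Results.MP_394d50_gt.SublinearIff

open Pool.Agent.W907.SG Pool.Agent.TH652.Above Pool.Agent.Y132.SI

/-- Let the flag complex of `G` be a real homology sphere of dimension `n - 1` in the class `AQ n`.
Then `χ(W G) = ∑_T (-1/2)^|T|` (over the cliques `T`) vanishes if and only if for each `ε > 0` there is a finite set
`E` of nontrivial elements of `W G` such that for every subgroup `H` of finite index of `W G` which contains no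
conjugate of an element of `E`, and for all `i`, the `i`-th real Betti number of `H` (the dimension of the space of
the `H`-invariant real harmonic `i`-chains of the Davis complex) is at most `ε [W G : H]`. -/
theorem result : ∀ (n : ℕ) (V : Type) [Fintype V] [LinearOrder V] (G : SimpleGraph V), HSph n G → AQ n G →
    (chiW G = 0 ↔ ∀ ε : ℝ, 0 < ε → ∃ E : Finset (W G), (1 : W G) ∉ E ∧
      ∀ H : Subgroup (W G), H.FiniteIndex → (∀ g ∈ E, ∀ x : W G, x * g * x⁻¹ ∉ H) → ∀ i : ℕ,
        (Module.finrank ℝ (HInv G H i) : ℝ) ≤ ε * H.index) := by
  intro n V _ _ G hS hA
  exact chi_iff G n (fun i hi => singer_AQ hS hA i hi)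

end Pool.Agent.Results.MP_394d50_gt.SublinearIff
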